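import Mathlib

/-!
Ping-pong sets for the elements `a ^ m * y j` in a group containing a free group.
-/

open FreeGroup

namespace Pool.Agent.Lib.MP_830418_an

/-- The data used in the construction. -/
def PingPong {G : Type*} [Group G] (a : G) (y : ℕ → G) (W V : ℕ → Set G) : Prop :=
  (∀ i j x, x ∈ W i → x ∈ W j → i = j) ∧
  (∀ j x, x ∉ W j → y j * x ∈ V j) ∧
  (∀ m m' j j' x x', x ∈ V j → x' ∈ V j' → a ^ m * x = a ^ m' * x' → m = m' ∧ j = j') ∧
  (∀ i j s t, (y i)⁻¹ * a ^ s = (y j)⁻¹ * a ^ t → i = j ∧ s = t)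

/-- The free group of rank two. -/
abbrev F2 : Type := FreeGroup (Fin 2)

theorem of_mul_mem {i : Fin 2} {v : F2} (h : v ∉ startsWith (i, false)) :
    FreeGroup.of i * v ∈ startsWith (i, true) :=
  startsWith_mk_mul (w := (i, true)) v h

theorem inv_of_mul_mem {i : Fin 2} {v : F2} (h : v ∉ startsWith (i, true)) :
    (FreeGroup.of i)⁻¹ * v ∈ startsWith (i, false) := by
  have h1 : (FreeGroup.of i)⁻¹ = FreeGroup.mk [(i, false)] := by
    simp [FreeGroup.of, FreeGroup.invRev]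
  rw [h1]
  exact startsWith_mk_mul (w := (i, false)) v h

theorem not_mem_of_mem {w w' : Fin 2 × Bool} (hne : w ≠ w') {v : F2} (h : v ∈ startsWith w) :
    v ∉ startsWith w' :=
  fun h' => (Set.disjoint_left.1 (startsWith.disjoint_iff_ne.2 hne)) h h'

theorem pow_mul_mem {i : Fin 2} {v : F2} (h : v ∉ startsWith (i, false)) (k : ℕ) :
    FreeGroup.of i ^ (k + 1) * v ∈ startsWith (i, true) := by
  induction k with
  | zero => simpa using of_mul_mem h
  | succ k ih =>
    rw [pow_succ', mul_assoc]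
    exact of_mul_mem (not_mem_of_mem (by simp) ih)

theorem inv_pow_mul_mem {i : Fin 2} {v : F2} (h : v ∉ startsWith (i, true)) (k : ℕ) :
    (FreeGroup.of i ^ (k + 1))⁻¹ * v ∈ startsWith (i, false) := by
  induction k with
  | zero => simpa using inv_of_mul_mem h
  | succ k ih =>
    rw [pow_succ, mul_inv_rev, mul_assoc]
    exact inv_of_mul_mem (not_mem_of_mem (by simp) ih)

theorem one_not_mem (w : Fin 2 × Bool) : (1 : F2) ∉ startsWith w :=
  fun h => startsWith.ne_one _ h rfl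

/-- The conjugates `b ^ (j + 1) * a * b ^ (-(j + 1))`. -/
def yF (j : ℕ) : F2 := FreeGroup.of 1 ^ (j + 1) * FreeGroup.of 0 * (FreeGroup.of 1 ^ (j + 1))⁻¹

def WF (j : ℕ) : Set F2 := {v | (FreeGroup.of 1 ^ (j + 1))⁻¹ * v ∈ startsWith (0, false)}

def VF (j : ℕ) : Set F2 := {v | (FreeGroup.of 1 ^ (j + 1))⁻¹ * v ∈ startsWith (0, true)}

theorem disj_aux {s : Bool} {i j : ℕ} (hij : i < j) {x : F2}
    (hi : (FreeGroup.of 1 ^ (i + 1))⁻¹ * x ∈ startsWith ((0 : Fin 2), s))
    (hj : (FreeGroup.of 1 ^ (j + 1))⁻¹ * x ∈ startsWith ((0 : Fin 2), s)) : False := by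
  have h1 : (FreeGroup.of (1 : Fin 2) ^ (j - i - 1 + 1)) * ((FreeGroup.of 1 ^ (j + 1))⁻¹ * x) ∈
      startsWith (1, true) := pow_mul_mem (not_mem_of_mem (by simp) hj) _
  have h2 : (FreeGroup.of (1 : Fin 2) ^ (j - i - 1 + 1)) * ((FreeGroup.of 1 ^ (j + 1))⁻¹ * x) =
      (FreeGroup.of 1 ^ (i + 1))⁻¹ * x := by
    have h3 : j + 1 = (i + 1) + (j - i - 1 + 1) := by omega
    have h4 : (FreeGroup.of (1 : Fin 2)) ^ (j + 1) =
        FreeGroup.of 1 ^ (j - i - 1 + 1) * FreeGroup.of 1 ^ (i + 1) := by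
      rw [← pow_add]
      congr 1
      omega
    rw [h4]
    group
  rw [h2] at h1
  exact not_mem_of_mem (by simp) h1 hi

theorem WF_disj (i j : ℕ) (x : F2) (hi : x ∈ WF i) (hj : x ∈ WF j) : i = j := by
  rcases lt_trichotomy i j with h | h | h
  · exact (disj_aux h hi hj).elim
  · exact h
  · exact (disj_aux h hj hi).elim

theorem VF_disj (i j : ℕ) (x : F2) (hi : x ∈ VF i) (hj : x ∈ VF j) : i = j := by
  rcases lt_trichotomy i j with h | h | h
  · exact (disj_aux h hi hj).elim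
  · exact h
  · exact (disj_aux h hj hi).elim

theorem yF_mul_mem (j : ℕ) (x : F2) (h : x ∉ WF j) : yF j * x ∈ VF j := by
  have h1 : (FreeGroup.of (1 : Fin 2) ^ (j + 1))⁻¹ * (yF j * x) =
      FreeGroup.of 0 * ((FreeGroup.of 1 ^ (j + 1))⁻¹ * x) := by
    unfold yF
    group
  show _ ∈ startsWith _
  rw [h1]
  exact of_mul_mem h

theorem VF_subset (j : ℕ) {x : F2} (h : x ∈ VF j) : x ∈ startsWith ((1 : Fin 2), true) := by
  have h1 := pow_mul_mem (i := 1) (not_mem_of_mem (w' := (1, false)) (by simp) h) j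
  rwa [mul_inv_cancel_left] at h1

theorem aux_lt {m m' : ℕ} (hm : m < m') {x x' : F2} (hx : x ∈ startsWith ((1 : Fin 2), true))
    (hx' : x' ∈ startsWith ((1 : Fin 2), true))
    (h : FreeGroup.of (0 : Fin 2) ^ m * x = FreeGroup.of 0 ^ m' * x') : False := by
  have h1 : x = FreeGroup.of 0 ^ (m' - m - 1 + 1) * x' := by
    have h2 : (FreeGroup.of (0 : Fin 2)) ^ m' =
        FreeGroup.of 0 ^ m * FreeGroup.of 0 ^ (m' - m - 1 + 1) := by
      rw [← pow_add]
      congr 1
      omega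
    rw [h2, mul_assoc] at h
    exact mul_left_cancel h
  have h3 := pow_mul_mem (i := 0) (not_mem_of_mem (w' := (0, false)) (by simp) hx') (m' - m - 1)
  rw [← h1] at h3
  exact not_mem_of_mem (by simp) hx h3

theorem translates (m m' j j' : ℕ) (x x' : F2) (hx : x ∈ VF j) (hx' : x' ∈ VF j')
    (h : FreeGroup.of (0 : Fin 2) ^ m * x = FreeGroup.of 0 ^ m' * x') : m = m' ∧ j = j' := by
  have hm : m = m' := by
    rcases lt_trichotomy m m' with h1 | h1 | h1
    · exact (aux_lt h1 (VF_subset j hx) (VF_subset j' hx') h).elim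
    · exact h1
    · exact (aux_lt h1 (VF_subset j' hx') (VF_subset j hx) h.symm).elim
  subst hm
  have h2 := mul_left_cancel h
  subst h2
  exact ⟨rfl, VF_disj _ _ _ hx hx'⟩

theorem inv_yF_mem (j s : ℕ) : (yF j)⁻¹ * FreeGroup.of 0 ^ s ∈ WF j := by
  have h0 : FreeGroup.of (0 : Fin 2) ^ s ∉ startsWith ((1 : Fin 2), true) := by
    cases s with
    | zero => simpa using one_not_mem (1, true)
    | succ s =>
      have := pow_mul_mem (i := 0) (one_not_mem (0, false)) s
      rw [mul_one] at this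
      exact not_mem_of_mem (by simp) this
  have h1 := inv_pow_mul_mem h0 j
  have h2 := inv_of_mul_mem (i := 0) (not_mem_of_mem (w' := (0, true)) (by simp) h1)
  have h3 : (FreeGroup.of (1 : Fin 2) ^ (j + 1))⁻¹ * ((yF j)⁻¹ * FreeGroup.of 0 ^ s) =
      (FreeGroup.of 0)⁻¹ * ((FreeGroup.of 1 ^ (j + 1))⁻¹ * FreeGroup.of 0 ^ s) := by
    unfold yF
    group
  show _ ∈ startsWith _
  rw [h3]
  exact h2

theorem pow_inj {s t : ℕ} (h : FreeGroup.of (0 : Fin 2) ^ s = FreeGroup.of 0 ^ t) : s = t := by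
  have key : ∀ {s t : ℕ}, s < t → FreeGroup.of (0 : Fin 2) ^ s = FreeGroup.of 0 ^ t → False := by
    intro s t hst h
    have h1 : (FreeGroup.of (0 : Fin 2)) ^ t =
        FreeGroup.of 0 ^ s * FreeGroup.of 0 ^ (t - s - 1 + 1) := by
      rw [← pow_add]
      congr 1
      omega
    rw [h1] at h
    have h2 : FreeGroup.of (0 : Fin 2) ^ (t - s - 1 + 1) = 1 := by
      have := h.symm
      rwa [mul_eq_left] at this
    have h3 := pow_mul_mem (i := 0) (one_not_mem (0, false)) (t - s - 1)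
    rw [mul_one, h2] at h3
    exact one_not_mem _ h3
  rcases lt_trichotomy s t with h1 | h1 | h1
  · exact (key h1 h).elim
  · exact h1
  · exact (key h1 h.symm).elim

theorem pingPong_free : PingPong (FreeGroup.of (0 : Fin 2)) yF WF VF := by
  refine ⟨WF_disj, yF_mul_mem, translates, fun i j s t h => ?_⟩
  have h1 := inv_yF_mem i s
  rw [h] at h1
  have h2 := WF_disj _ _ _ h1 (inv_yF_mem j t)
  subst h2
  exact ⟨rfl, pow_inj (mul_left_cancel h)⟩

/-- A group containing `F` has an equivariant map to `F`. -/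
theorem exists_equivariant {F G : Type*} [Group F] [Group G] (φ : F →* G)
    (hφ : Function.Injective φ) : ∃ τ : G → F, ∀ w x, τ (φ w * x) = w * τ x := by
  classical
  let r : Setoid G := QuotientGroup.rightRel φ.range
  have hr : ∀ x : G, ∃ w : F, φ w = x * (Quotient.out (Quotient.mk r x))⁻¹ := by
    intro x
    have h1 : r (Quotient.out (Quotient.mk r x)) x := Quotient.mk_out x
    have h2 := QuotientGroup.rightRel_apply.1 h1
    exact h2
  choose τ hτ using hr
  refine ⟨τ, fun w x => hφ ?_⟩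
  have h1 : Quotient.mk r (φ w * x) = Quotient.mk r x := by
    refine Quotient.sound ?_
    refine QuotientGroup.rightRel_apply.2 ?_
    refine ⟨w⁻¹, ?_⟩
    simp
  rw [hτ, h1, _root_.map_mul, hτ]
  group

theorem exists_pingPong {G : Type*} [Group G] (φ : F2 →* G) (hφ : Function.Injective φ) :
    ∃ (a : G) (y : ℕ → G) (W V : ℕ → Set G), PingPong a y W V := by
  obtain ⟨τ, hτ⟩ := exists_equivariant φ hφ
  obtain ⟨h1, h2, h3, h4⟩ := pingPong_free
  refine ⟨φ (FreeGroup.of 0), fun j => φ (yF j), fun j => τ ⁻¹' (WF j), fun j => τ ⁻¹' (VF j),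
    fun i j x hi hj => h1 i j _ hi hj, fun j x hx => ?_, fun m m' j j' x x' hx hx' h => ?_,
    fun i j s t h => ?_⟩
  · show τ (φ (yF j) * x) ∈ VF j
    rw [hτ]
    exact h2 j _ hx
  · refine h3 m m' j j' (τ x) (τ x') hx hx' ?_
    rw [← map_pow, ← map_pow] at h
    rw [← hτ, ← hτ, h]
  · refine h4 i j s t (hφ ?_)
    simpa using h

end Pool.Agent.Lib.MP_830418_an
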