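import Pool.Agent.Lib.MP_830418_an.Schur
import Pool.Agent.Lib.MP_830418_an.PingPong

/-!
One level of the construction: a finitely supported positive function whose convolution norm is
bounded while the norm of its involution is large.
-/

open scoped ENNReal
open Finset

namespace Pool.Agent.Lib.MP_830418_an

variable {G : Type*} [Group G]

/-- The index set. -/
abbrev idx (M d : ℕ) : Finset (ℕ × ℕ) := range M ×ˢ range d

/-- The elements `a ^ m * y j`. -/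
def uu (a : G) (y : ℕ → G) (i : ℕ × ℕ) : G := a ^ i.1 * y i.2

open Classical in
/-- The measure `c ∑ δ_{a^m y_j}`. -/
noncomputable def hh (a : G) (y : ℕ → G) (M d : ℕ) (c : ℝ≥0∞) (x : G) : ℝ≥0∞ :=
  c * ∑ i ∈ idx M d, if x = uu a y i then 1 else 0

open Classical in
noncomputable def kk (a : G) (y : ℕ → G) (M d : ℕ) (c : ℝ≥0∞) (P : ℕ → G → Prop) (g k : G) :
    ℝ≥0∞ :=
  c * ∑ i ∈ idx M d, if g * k⁻¹ = uu a y i ∧ P i.2 k then 1 else 0

theorem hh_eq (a : G) (y : ℕ → G) (M d : ℕ) (c : ℝ≥0∞) (P : ℕ → G → Prop) (g k : G) :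
    hh a y M d c (g * k⁻¹) ≤ kk a y M d c P g k + kk a y M d c (fun j x => ¬ P j x) g k := by
  classical
  unfold hh kk
  rw [← mul_add, ← sum_add_distrib]
  refine mul_le_mul_right (sum_le_sum fun i _ => ?_) _
  by_cases h1 : g * k⁻¹ = uu a y i
  · by_cases h2 : P i.2 k <;> simp [h1, h2]
  · simp [h1]

open Classical in
theorem tsum_ite_left (g u : G) (Q : G → Prop) :
    ∑' k, (if g * k⁻¹ = u ∧ Q k then (1 : ℝ≥0∞) else 0) = if Q (u⁻¹ * g) then 1 else 0 := by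
  rw [tsum_eq_single (u⁻¹ * g)]
  · by_cases h : Q (u⁻¹ * g)
    · simp [h]
    · simp [h]
  · intro k hk
    rw [if_neg]
    rintro ⟨h1, _⟩
    apply hk
    rw [← h1]
    group

open Classical in
theorem tsum_ite_right (k u : G) (Q : Prop) :
    ∑' g, (if g * k⁻¹ = u ∧ Q then (1 : ℝ≥0∞) else 0) = if Q then 1 else 0 := by
  rw [tsum_eq_single (u * k)]
  · by_cases h : Q
    · simp [h]
    · simp [h]
  · intro g hg
    rw [if_neg]
    rintro ⟨h1, _⟩
    apply hg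
    rw [← h1]
    group

theorem card_idx (M d : ℕ) : (idx M d).card = M * d := by simp [idx]

open Classical in
theorem row_le (a : G) (y : ℕ → G) (M d : ℕ) (c : ℝ≥0∞) (P : ℕ → G → Prop) (g : G) {N : ℕ}
    (hN : ∀ s ⊆ idx M d, (∀ i ∈ s, P i.2 ((uu a y i)⁻¹ * g)) → s.card ≤ N) :
    ∑' k, kk a y M d c P g k ≤ c * N := by
  unfold kk
  rw [ENNReal.tsum_mul_left, Summable.tsum_finsetSum fun i _ => ENNReal.summable]
  refine mul_le_mul_right ?_ _
  refine (sum_le_sum fun i _ => (tsum_ite_left g (uu a y i) (P i.2)).le).trans ?_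
  rw [← sum_filter, sum_const, nsmul_eq_mul, mul_one]
  exact_mod_cast hN _ (filter_subset _ _) fun i hi => (mem_filter.1 hi).2

open Classical in
theorem col_le (a : G) (y : ℕ → G) (M d : ℕ) (c : ℝ≥0∞) (P : ℕ → G → Prop) (k : G) {N : ℕ}
    (hN : ∀ s ⊆ idx M d, (∀ i ∈ s, P i.2 k) → s.card ≤ N) :
    ∑' g, kk a y M d c P g k ≤ c * N := by
  unfold kk
  rw [ENNReal.tsum_mul_left, Summable.tsum_finsetSum fun i _ => ENNReal.summable]
  refine mul_le_mul_right ?_ _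
  refine (sum_le_sum fun i _ => (tsum_ite_right k (uu a y i) (P i.2 k)).le).trans ?_
  rw [← sum_filter, sum_const, nsmul_eq_mul, mul_one]
  exact_mod_cast hN _ (filter_subset _ _) fun i hi => (mem_filter.1 hi).2

section

variable {a : G} {y : ℕ → G} {W V : ℕ → Set G} (hPP : PingPong a y W V) (M d : ℕ) (c : ℝ≥0∞)

include hPP

theorem row2 (g : G) : ∑' k, kk a y M d c (fun j x => ¬ x ∈ W j) g k ≤ c * (1 : ℕ) := by
  refine row_le a y M d c _ g fun s _ hs => ?_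
  rw [card_le_one]
  intro i hi j hj
  have h1 := hPP.2.1 _ _ (hs i hi)
  have h2 := hPP.2.1 _ _ (hs j hj)
  have h3 := hPP.2.2.1 i.1 j.1 i.2 j.2 _ _ h1 h2 (by
    rw [← mul_assoc, ← mul_assoc, ← mul_assoc, ← mul_assoc]
    show uu a y i * (uu a y i)⁻¹ * g = uu a y j * (uu a y j)⁻¹ * g
    simp)
  exact Prod.ext h3.1 h3.2

theorem col1 (k : G) : ∑' g, kk a y M d c (fun j x => x ∈ W j) g k ≤ c * (M : ℕ) := by
  refine col_le a y M d c _ k fun s hs hsW => ?_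
  calc s.card ≤ (range M).card := by
        refine card_le_card_of_injOn (fun i => i.1) (fun i hi => ?_) fun i hi j hj hij => ?_
        · exact (mem_product.1 (hs hi)).1
        · exact Prod.ext hij (hPP.1 _ _ _ (hsW i hi) (hsW j hj))
    _ = M := card_range M

end

theorem row_all (a : G) (y : ℕ → G) (M d : ℕ) (c : ℝ≥0∞) (P : ℕ → G → Prop) (g : G) :
    ∑' k, kk a y M d c P g k ≤ c * (M * d : ℕ) :=
  row_le a y M d c _ g fun _ hs _ => (card_le_card hs).trans (card_idx M d).le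

theorem col_all (a : G) (y : ℕ → G) (M d : ℕ) (c : ℝ≥0∞) (P : ℕ → G → Prop) (k : G) :
    ∑' g, kk a y M d c P g k ≤ c * (M * d : ℕ) :=
  col_le a y M d c _ k fun _ hs _ => (card_le_card hs).trans (card_idx M d).le

/-- The bound for `c ∑ δ_{a^m y_j}`. -/
theorem upper_one {a : G} {y : ℕ → G} {W V : ℕ → Set G} (hPP : PingPong a y W V) (M d : ℕ)
    (c : ℝ≥0∞) {p : ℝ} (hp : 1 < p) (z : G → ℝ≥0∞) :
    ∑' g, (∑' k, hh a y M d c (g * k⁻¹) * z k) ^ p ≤
      2 ^ (p - 1) * ((c * (M * d : ℕ)) ^ (p - 1) * (c * (M : ℕ)) +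
        (c * (1 : ℕ)) ^ (p - 1) * (c * (M * d : ℕ))) * ∑' k, z k ^ p :=
  schur_two hp (fun g k => hh_eq a y M d c (fun j x => x ∈ W j) g k)
    (fun g => row_all a y M d c _ g) (fun k => col1 hPP M d c k)
    (fun g => row2 hPP M d c g) (fun k => col_all a y M d c _ k) z

/-- The bound for `c ∑ δ_{(a^m y_j)⁻¹}`. -/
theorem upper_two {a : G} {y : ℕ → G} {W V : ℕ → Set G} (hPP : PingPong a y W V) (M d : ℕ)
    (c : ℝ≥0∞) {p : ℝ} (hp : 1 < p) (z : G → ℝ≥0∞) :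
    ∑' g, (∑' k, hh a y M d c (g * k⁻¹)⁻¹ * z k) ^ p ≤
      2 ^ (p - 1) * ((c * (M : ℕ)) ^ (p - 1) * (c * (M * d : ℕ)) +
        (c * (M * d : ℕ)) ^ (p - 1) * (c * (1 : ℕ))) * ∑' k, z k ^ p := by
  refine schur_two hp (K1 := fun g k => kk a y M d c (fun j x => x ∈ W j) k g)
    (K2 := fun g k => kk a y M d c (fun j x => ¬ x ∈ W j) k g) (fun g k => ?_)
    (fun g => col1 hPP M d c g) (fun k => row_all a y M d c _ k)
    (fun g => col_all a y M d c _ g) (fun k => row2 hPP M d c k) z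
  rw [mul_inv_rev, inv_inv]
  exact hh_eq a y M d c (fun j x => x ∈ W j) k g

/-- Lower bound for the sum of `hh` over a set. -/
theorem hh_sum_ge (a : G) (y : ℕ → G) (M d : ℕ) (c : ℝ≥0∞) (S : Finset G) (x : G)
    (s : Finset (ℕ × ℕ)) (hs : s ⊆ idx M d) (h : ∀ i ∈ s, (uu a y i)⁻¹ * x ∈ S) :
    c * s.card ≤ ∑ k ∈ S, hh a y M d c (x * k⁻¹) := by
  classical
  unfold hh
  rw [← mul_sum, sum_comm]
  refine mul_le_mul_right ?_ _
  calc (s.card : ℝ≥0∞) = ∑ _i ∈ s, 1 := by simp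
    _ ≤ ∑ i ∈ s, ∑ k ∈ S, (if x * k⁻¹ = uu a y i then (1 : ℝ≥0∞) else 0) := by
        refine sum_le_sum fun i hi => ?_
        refine le_trans ?_ (single_le_sum (fun _ _ => zero_le) (h i hi))
        simp
    _ ≤ _ := sum_le_sum_of_subset hs

theorem hh_sum_ge' (a : G) (y : ℕ → G) (M d : ℕ) (c : ℝ≥0∞) (S : Finset G) (x : G)
    (s : Finset (ℕ × ℕ)) (hs : s ⊆ idx M d) (h : ∀ i ∈ s, uu a y i * x ∈ S) :
    c * s.card ≤ ∑ k ∈ S, hh a y M d c (x * k⁻¹)⁻¹ := by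
  classical
  unfold hh
  rw [← mul_sum, sum_comm]
  refine mul_le_mul_right ?_ _
  calc (s.card : ℝ≥0∞) = ∑ _i ∈ s, 1 := by simp
    _ ≤ ∑ i ∈ s, ∑ k ∈ S, (if (x * k⁻¹)⁻¹ = uu a y i then (1 : ℝ≥0∞) else 0) := by
        refine sum_le_sum fun i hi => ?_
        refine le_trans ?_ (single_le_sum (fun _ _ => zero_le) (h i hi))
        simp
    _ ≤ _ := sum_le_sum_of_subset hs

end Pool.Agent.Lib.MP_830418_an
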