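import Pool.Agent.Lib.MP_830418_an.Level

/-!
One level of the construction, with the parameters chosen.
-/

open scoped ENNReal
open Finset

namespace Pool.Agent.Lib.MP_830418_an

variable {G : Type*} [Group G]

theorem exists_nat_rpow {e : ℝ} (he : 0 < e) {R : ℝ≥0∞} (hR : R ≠ ⊤) :
    ∃ n : ℕ, 1 ≤ n ∧ R ≤ (n : ℝ≥0∞) ^ e := by
  have h1 : R ^ (1 / e) ≠ ⊤ := ENNReal.rpow_ne_top_of_nonneg (by positivity) hR
  obtain ⟨n, hn⟩ := ENNReal.exists_nat_gt h1
  refine ⟨n + 1, by omega, ?_⟩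
  have h2 : R = (R ^ (1 / e)) ^ e := by
    rw [← ENNReal.rpow_mul, one_div, inv_mul_cancel₀ he.ne', ENNReal.rpow_one]
  rw [h2]
  refine ENNReal.rpow_le_rpow (hn.le.trans ?_) he.le
  exact_mod_cast Nat.le_succ n

theorem rpow_mul_self (c : ℝ≥0∞) {e : ℝ} (he : 0 ≤ e) : c ^ e * c = c ^ (e + 1) := by
  have := ENNReal.rpow_add_of_nonneg (x := c) e 1 he zero_le_one
  rw [this, ENNReal.rpow_one]

theorem exists_level_lt {a : G} {y : ℕ → G} {W V : ℕ → Set G} (hPP : PingPong a y W V)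
    {p : ℝ} (hp : 1 < p) (hp2 : p < 2) {R : ℝ≥0∞} (hR : R ≠ ⊤) :
    ∃ h : G → ℝ≥0∞,
      (∀ z : G → ℝ≥0∞, ∑' g, (∑' k, h (g * k⁻¹) * z k) ^ p ≤ 2 ^ p * ∑' k, z k ^ p) ∧
      ∃ S B : Finset G, S.Nonempty ∧ S.card * R ≤ ∑ x ∈ B, (∑ k ∈ S, h (x * k⁻¹)⁻¹) ^ p := by
  classical
  have hp0 : 0 < p := by linarith
  have hp1 : 0 < p - 1 := by linarith
  have hp2' : 0 < 2 - p := by linarith
  obtain ⟨M, hM, hMR⟩ := exists_nat_rpow hp1 (R := 2 * R) (ENNReal.mul_ne_top (by simp) hR)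
  obtain ⟨d, hd, hdM⟩ := exists_nat_rpow hp2' (R := (M : ℝ≥0∞) ^ (p - 1))
    (ENNReal.rpow_ne_top_of_nonneg hp1.le (by simp))
  have hM0 : (M : ℝ≥0∞) ≠ 0 := by exact_mod_cast (by omega : M ≠ 0)
  have hd0 : (d : ℝ≥0∞) ≠ 0 := by exact_mod_cast (by omega : d ≠ 0)
  have hMt : (M : ℝ≥0∞) ≠ ⊤ := by simp
  have hdt : (d : ℝ≥0∞) ≠ ⊤ := by simp
  set N : ℝ≥0∞ := ((M * d : ℕ) : ℝ≥0∞) with hN
  have hNMd : N = M * d := by simp [hN]
  have hN0 : N ≠ 0 := by rw [hNMd]; exact mul_ne_zero hM0 hd0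
  have hNt : N ≠ ⊤ := ENNReal.natCast_ne_top _
  set c : ℝ≥0∞ := N ^ (-(1 / p)) with hc
  have hcp : c ^ p = N⁻¹ := by
    rw [hc, ← ENNReal.rpow_mul]
    have : -(1 / p) * p = -1 := by field_simp
    rw [this, ENNReal.rpow_neg_one]
  have hcc : c ^ (p - 1) * c = N⁻¹ := by
    rw [← hcp, rpow_mul_self c hp1.le, sub_add_cancel]
  -- the two parts of the upper bound
  have hpart1 : (c * N) ^ (p - 1) * (c * (M : ℕ)) ≤ 1 := by
    have h1 : (c * N) ^ (p - 1) * (c * (M : ℕ)) = N⁻¹ * (N ^ (p - 1) * M) := by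
      rw [ENNReal.mul_rpow_of_nonneg _ _ hp1.le, ← hcc]
      ring
    have h2 : N ^ (p - 1) * M ≤ N := by
      calc N ^ (p - 1) * M = (M : ℝ≥0∞) ^ (p - 1) * (d : ℝ≥0∞) ^ (p - 1) * M := by
            rw [hNMd, ENNReal.mul_rpow_of_nonneg _ _ hp1.le]
        _ ≤ (d : ℝ≥0∞) ^ (2 - p) * (d : ℝ≥0∞) ^ (p - 1) * M := by gcongr
        _ = N := by
            rw [← ENNReal.rpow_add_of_nonneg _ _ hp2'.le hp1.le]
            have : 2 - p + (p - 1) = 1 := by ring
            rw [this, ENNReal.rpow_one, hNMd, mul_comm]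
    rw [h1]
    calc N⁻¹ * (N ^ (p - 1) * M) ≤ N⁻¹ * N := by gcongr
      _ = 1 := ENNReal.inv_mul_cancel hN0 hNt
  have hpart2 : (c * ((1 : ℕ) : ℝ≥0∞)) ^ (p - 1) * (c * N) ≤ 1 := by
    rw [Nat.cast_one, mul_one, ← mul_assoc, hcc]
    exact (ENNReal.inv_mul_cancel hN0 hNt).le
  refine ⟨hh a y M d c, fun z => ?_, (range (2 * M)).image fun s => a ^ s,
    (idx M d).image fun i => (y i.2)⁻¹ * a ^ i.1, ?_, ?_⟩
  · refine (upper_one hPP M d c hp z).trans ?_
    refine mul_le_mul_left ?_ _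
    calc 2 ^ (p - 1) * ((c * N) ^ (p - 1) * (c * (M : ℕ)) +
          (c * ((1 : ℕ) : ℝ≥0∞)) ^ (p - 1) * (c * N)) ≤ 2 ^ (p - 1) * (1 + 1) := by
          gcongr
      _ = 2 ^ p := by
          rw [one_add_one_eq_two, rpow_mul_self 2 hp1.le, sub_add_cancel]
  · rw [image_nonempty, nonempty_range_iff]
    omega
  · have hcard : ((idx M d).image fun i => (y i.2)⁻¹ * a ^ i.1).card = M * d := by
      rw [card_image_of_injOn, card_idx]
      intro i _ j _ hij
      obtain ⟨h1, h2⟩ := hPP.2.2.2 _ _ _ _ hij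
      exact Prod.ext h2 h1
    have hS : (((range (2 * M)).image fun s => a ^ s).card : ℝ≥0∞) ≤ 2 * M := by
      have : ((range (2 * M)).image fun s => a ^ s).card ≤ 2 * M :=
        card_image_le.trans (card_range _).le
      exact_mod_cast this
    have hinner : ∀ x ∈ (idx M d).image fun i => (y i.2)⁻¹ * a ^ i.1,
        c * M ≤ ∑ k ∈ (range (2 * M)).image fun s => a ^ s, hh a y M d c (x * k⁻¹)⁻¹ := by
      intro x hx
      obtain ⟨i, hi, rfl⟩ := mem_image.1 hx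
      obtain ⟨hi1, hi2⟩ := mem_product.1 hi
      have h1 := hh_sum_ge' a y M d c ((range (2 * M)).image fun s => a ^ s)
        ((y i.2)⁻¹ * a ^ i.1) (range M ×ˢ {i.2}) (by
          refine product_subset_product subset_rfl ?_
          rwa [singleton_subset_iff]) (by
          intro k hk
          obtain ⟨hk1, hk2⟩ := mem_product.1 hk
          rw [mem_singleton] at hk2
          rw [mem_image]
          refine ⟨k.1 + i.1, ?_, ?_⟩
          · rw [mem_range] at hk1 hi1 ⊢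
            omega
          · unfold uu
            rw [hk2, pow_add]
            group)
      simpa using h1
    calc (((range (2 * M)).image fun s => a ^ s).card : ℝ≥0∞) * R
        ≤ 2 * M * R := by gcongr
      _ = M * (2 * R) := by ring
      _ ≤ M * (M : ℝ≥0∞) ^ (p - 1) := by gcongr
      _ = (M * d : ℕ) * (c * M) ^ p := by
          rw [ENNReal.mul_rpow_of_nonneg _ _ hp0.le, hcp, ← mul_assoc, ← hN,
            ENNReal.mul_inv_cancel hN0 hNt, one_mul, mul_comm, rpow_mul_self _ hp1.le,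
            sub_add_cancel]
      _ = ∑ _x ∈ (idx M d).image fun i => (y i.2)⁻¹ * a ^ i.1, (c * M) ^ p := by
          rw [sum_const, hcard, nsmul_eq_mul]
      _ ≤ _ := sum_le_sum fun x hx => ENNReal.rpow_le_rpow (hinner x hx) hp0.le

theorem exists_level_gt {a : G} {y : ℕ → G} {W V : ℕ → Set G} (hPP : PingPong a y W V)
    {p : ℝ} (hp : 2 < p) {R : ℝ≥0∞} (hR : R ≠ ⊤) :
    ∃ h : G → ℝ≥0∞,
      (∀ z : G → ℝ≥0∞, ∑' g, (∑' k, h (g * k⁻¹) * z k) ^ p ≤ 2 ^ p * ∑' k, z k ^ p) ∧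
      ∃ S B : Finset G, S.Nonempty ∧ S.card * R ≤ ∑ x ∈ B, (∑ k ∈ S, h (x * k⁻¹)⁻¹) ^ p := by
  classical
  have hp0 : 0 < p := by linarith
  have hp1 : 0 < p - 1 := by linarith
  have hp2' : 0 < p - 2 := by linarith
  obtain ⟨M, hM, hMR⟩ := exists_nat_rpow one_pos (R := 2 * R) (ENNReal.mul_ne_top (by simp) hR)
  rw [ENNReal.rpow_one] at hMR
  obtain ⟨d, hd, hdM⟩ := exists_nat_rpow hp2' (R := (M : ℝ≥0∞)) (by simp)
  have hM0 : (M : ℝ≥0∞) ≠ 0 := by exact_mod_cast (by omega : M ≠ 0)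
  have hd0 : (d : ℝ≥0∞) ≠ 0 := by exact_mod_cast (by omega : d ≠ 0)
  set N : ℝ≥0∞ := ((M * d : ℕ) : ℝ≥0∞) with hN
  have hNMd : N = M * d := by simp [hN]
  have hN0 : N ≠ 0 := by rw [hNMd]; exact mul_ne_zero hM0 hd0
  have hNt : N ≠ ⊤ := ENNReal.natCast_ne_top _
  set c : ℝ≥0∞ := N ^ (-((p - 1) / p)) with hc
  have hcp : c ^ p = (N ^ (p - 1))⁻¹ := by
    rw [hc, ← ENNReal.rpow_mul, ← ENNReal.rpow_neg]
    congr 1
    field_simp
  have hNp0 : N ^ (p - 1) ≠ 0 := by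
    rw [Ne, ENNReal.rpow_eq_zero_iff]
    rintro (h | h)
    · exact hN0 h.1
    · exact hNt h.1
  have hNpt : N ^ (p - 1) ≠ ⊤ := ENNReal.rpow_ne_top_of_nonneg hp1.le hNt
  have hcc : c ^ (p - 1) * c = (N ^ (p - 1))⁻¹ := by
    rw [← hcp, rpow_mul_self c hp1.le, sub_add_cancel]
  have hpart1 : (c * (M : ℕ)) ^ (p - 1) * (c * N) ≤ 1 := by
    have h1 : (c * (M : ℕ)) ^ (p - 1) * (c * N) = (N ^ (p - 1))⁻¹ * ((M : ℝ≥0∞) ^ (p - 1) * N) := by
      rw [ENNReal.mul_rpow_of_nonneg _ _ hp1.le, ← hcc]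
      ring
    have h2 : (M : ℝ≥0∞) ^ (p - 1) * N ≤ N ^ (p - 1) := by
      calc (M : ℝ≥0∞) ^ (p - 1) * N = (M : ℝ≥0∞) ^ (p - 1) * (M * d) := by rw [hNMd]
        _ ≤ (M : ℝ≥0∞) ^ (p - 1) * ((d : ℝ≥0∞) ^ (p - 2) * d) := by gcongr
        _ = (M : ℝ≥0∞) ^ (p - 1) * (d : ℝ≥0∞) ^ (p - 1) := by
            rw [rpow_mul_self _ hp2'.le]
            congr 2
            ring
        _ = N ^ (p - 1) := by rw [hNMd, ENNReal.mul_rpow_of_nonneg _ _ hp1.le]
    rw [h1]
    calc (N ^ (p - 1))⁻¹ * ((M : ℝ≥0∞) ^ (p - 1) * N) ≤ (N ^ (p - 1))⁻¹ * N ^ (p - 1) := by gcongr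
      _ = 1 := ENNReal.inv_mul_cancel hNp0 hNpt
  have hpart2 : (c * N) ^ (p - 1) * (c * ((1 : ℕ) : ℝ≥0∞)) ≤ 1 := by
    have h1 : (c * N) ^ (p - 1) * (c * ((1 : ℕ) : ℝ≥0∞)) = (N ^ (p - 1))⁻¹ * N ^ (p - 1) := by
      rw [ENNReal.mul_rpow_of_nonneg _ _ hp1.le, ← hcc, Nat.cast_one]
      ring
    rw [h1]
    exact (ENNReal.inv_mul_cancel hNp0 hNpt).le
  refine ⟨fun x => hh a y M d c x⁻¹, fun z => ?_,
    (range (2 * M) ×ˢ range d).image fun i => (y i.2)⁻¹ * a ^ i.1,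
    (range M).image fun t => a ^ (M + t), ?_, ?_⟩
  · refine (upper_two hPP M d c (by linarith) z).trans ?_
    refine mul_le_mul_left ?_ _
    calc 2 ^ (p - 1) * ((c * (M : ℕ)) ^ (p - 1) * (c * N) +
          (c * N) ^ (p - 1) * (c * ((1 : ℕ) : ℝ≥0∞))) ≤ 2 ^ (p - 1) * (1 + 1) := by
          gcongr
      _ = 2 ^ p := by
          rw [one_add_one_eq_two, rpow_mul_self 2 hp1.le, sub_add_cancel]
  · rw [image_nonempty, nonempty_product, nonempty_range_iff, nonempty_range_iff]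
    omega
  · have hcard : ((range M).image fun t => a ^ (M + t)).card = M := by
      rw [card_image_of_injective, card_range]
      intro s t hst
      have := (hPP.2.2.2 0 0 _ _ (congrArg (fun x => (y 0)⁻¹ * x) hst)).2
      omega
    have hS : (((range (2 * M) ×ˢ range d).image fun i => (y i.2)⁻¹ * a ^ i.1).card : ℝ≥0∞) ≤
        2 * N := by
      have h1 : ((range (2 * M) ×ˢ range d).image fun i => (y i.2)⁻¹ * a ^ i.1).card ≤
          2 * (M * d) := by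
        refine card_image_le.trans ?_
        rw [card_product, card_range, card_range, mul_assoc]
      rw [hN]
      exact_mod_cast h1
    have hinner : ∀ x ∈ (range M).image fun t => a ^ (M + t),
        c * N ≤ ∑ k ∈ (range (2 * M) ×ˢ range d).image fun i => (y i.2)⁻¹ * a ^ i.1,
          hh a y M d c ((x * k⁻¹)⁻¹)⁻¹ := by
      intro x hx
      obtain ⟨t, ht, rfl⟩ := mem_image.1 hx
      rw [mem_range] at ht
      have h1 := hh_sum_ge a y M d c
        ((range (2 * M) ×ˢ range d).image fun i => (y i.2)⁻¹ * a ^ i.1)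
        (a ^ (M + t)) (idx M d) subset_rfl (by
          intro k hk
          obtain ⟨hk1, hk2⟩ := mem_product.1 hk
          rw [mem_range] at hk1
          rw [mem_image]
          refine ⟨(M + t - k.1, k.2), ?_, ?_⟩
          · rw [mem_product, mem_range]
            exact ⟨by simp only; omega, hk2⟩
          · unfold uu
            have h2 : a ^ (M + t) = a ^ k.1 * a ^ (M + t - k.1) := by
              rw [← pow_add]
              congr 1
              omega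
            rw [h2]
            group)
      simp only [inv_inv]
      rw [card_idx] at h1
      exact h1
    calc (((range (2 * M) ×ˢ range d).image fun i => (y i.2)⁻¹ * a ^ i.1).card : ℝ≥0∞) * R
        ≤ 2 * N * R := by gcongr
      _ = N * (2 * R) := by ring
      _ ≤ N * M := by gcongr
      _ = M * (c * N) ^ p := by
          rw [ENNReal.mul_rpow_of_nonneg _ _ hp0.le, hcp]
          have h3 : N ^ p = N ^ (p - 1) * N := by
            rw [rpow_mul_self _ hp1.le, sub_add_cancel]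
          rw [h3, ← mul_assoc (N ^ (p - 1))⁻¹, ENNReal.inv_mul_cancel hNp0 hNpt, one_mul, mul_comm]
      _ = ∑ _x ∈ (range M).image fun t => a ^ (M + t), (c * N) ^ p := by
          rw [sum_const, hcard, nsmul_eq_mul]
      _ ≤ _ := sum_le_sum fun x hx => ENNReal.rpow_le_rpow (hinner x hx) hp0.le

end Pool.Agent.Lib.MP_830418_an
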