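import Pool.Agent.Lib.MP_830418_an.LevelTwo

/-!
Assembly of the levels.
-/

open scoped ENNReal
open Finset

namespace Pool.Agent.Lib.MP_830418_an

variable {G : Type*} [Group G]

theorem exists_level (φ : F2 →* G) (hφ : Function.Injective φ) {p : ℝ} (hp : 1 < p) (hp2 : p ≠ 2)
    {R : ℝ≥0∞} (hR : R ≠ ⊤) :
    ∃ h : G → ℝ≥0∞,
      (∀ z : G → ℝ≥0∞, ∑' g, (∑' k, h (g * k⁻¹) * z k) ^ p ≤ 2 ^ p * ∑' k, z k ^ p) ∧
      ∃ S B : Finset G, S.Nonempty ∧ S.card * R ≤ ∑ x ∈ B, (∑ k ∈ S, h (x * k⁻¹)⁻¹) ^ p := by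
  obtain ⟨a, y, W, V, hPP⟩ := exists_pingPong φ hφ
  rcases lt_or_gt_of_ne hp2 with h | h
  · exact exists_level_lt hPP hp h hR
  · exact exists_level_gt hPP h hR

theorem sum_weights : ∑' n : ℕ, ((2 : ℝ≥0∞)⁻¹) ^ (n + 1) = 1 := by
  rw [ENNReal.tsum_geometric_add_one, ENNReal.one_sub_inv_two]
  exact ENNReal.mul_inv_cancel (by simp) (by simp)

theorem exists_positive (φ : F2 →* G) (hφ : Function.Injective φ) {p : ℝ} (hp : 1 < p)
    (hp2 : p ≠ 2) :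
    ∃ F : G → ℝ≥0∞, (∀ x, F x ≠ ⊤) ∧
      (∀ z : G → ℝ≥0∞, ∑' g, (∑' k, F (g * k⁻¹) * z k) ^ p ≤ 2 ^ p * ∑' k, z k ^ p) ∧
      ∀ n : ℕ, ∃ S B : Finset G, S.Nonempty ∧
        (S.card : ℝ≥0∞) * (n + 1) ≤ ∑ x ∈ B, (∑ k ∈ S, F (x * k⁻¹)⁻¹) ^ p := by
  classical
  have hp0 : 0 < p := by linarith
  choose h hup hlow using fun n : ℕ => exists_level φ hφ hp hp2
    (R := ((2 : ℝ≥0∞) ^ (n + 1)) ^ p * (n + 1))
    (ENNReal.mul_ne_top (ENNReal.rpow_ne_top_of_nonneg hp0.le (by simp))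
      (by exact_mod_cast ENNReal.natCast_ne_top (n + 1)))
  set F : G → ℝ≥0∞ := fun x => ∑' n : ℕ, ((2 : ℝ≥0∞)⁻¹) ^ (n + 1) * h n x with hF
  have hbound : ∀ z : G → ℝ≥0∞, ∑' g, (∑' k, F (g * k⁻¹) * z k) ^ p ≤ 2 ^ p * ∑' k, z k ^ p := by
    intro z
    have h1 : ∀ g, ∑' k, F (g * k⁻¹) * z k =
        ∑' n : ℕ, ((2 : ℝ≥0∞)⁻¹) ^ (n + 1) * ∑' k, h n (g * k⁻¹) * z k := by
      intro g
      simp only [hF]
      simp_rw [← ENNReal.tsum_mul_right, ← ENNReal.tsum_mul_left]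
      rw [ENNReal.tsum_comm]
      refine tsum_congr fun n => tsum_congr fun k => ?_
      ring
    calc ∑' g, (∑' k, F (g * k⁻¹) * z k) ^ p
        ≤ ∑' g, ∑' n : ℕ, ((2 : ℝ≥0∞)⁻¹) ^ (n + 1) * (∑' k, h n (g * k⁻¹) * z k) ^ p := by
          refine ENNReal.tsum_le_tsum fun g => ?_
          rw [h1]
          refine (jensen_tsum hp _ _).trans ?_
          rw [sum_weights, ENNReal.one_rpow, one_mul]
      _ = ∑' n : ℕ, ((2 : ℝ≥0∞)⁻¹) ^ (n + 1) * ∑' g, (∑' k, h n (g * k⁻¹) * z k) ^ p := by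
          rw [ENNReal.tsum_comm]
          exact tsum_congr fun n => ENNReal.tsum_mul_left
      _ ≤ ∑' n : ℕ, ((2 : ℝ≥0∞)⁻¹) ^ (n + 1) * (2 ^ p * ∑' k, z k ^ p) :=
          ENNReal.tsum_le_tsum fun n => mul_le_mul_right (hup n z) _
      _ = 2 ^ p * ∑' k, z k ^ p := by rw [ENNReal.tsum_mul_right, sum_weights, one_mul]
  refine ⟨F, fun x => ?_, hbound, fun n => ?_⟩
  · have h1 := hbound (Pi.single 1 1)
    have h2 : ∑' k : G, (Pi.single 1 1 : G → ℝ≥0∞) k ^ p = 1 := by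
      rw [tsum_eq_single 1]
      · simp
      · intro k hk
        simp [hk, hp0]
    rw [h2, mul_one] at h1
    have h3 : ∀ g, ∑' k, F (g * k⁻¹) * (Pi.single 1 1 : G → ℝ≥0∞) k = F g := by
      intro g
      rw [tsum_eq_single 1]
      · simp
      · intro k hk
        simp [hk]
    simp_rw [h3] at h1
    have h4 : F x ^ p ≤ 2 ^ p := (ENNReal.le_tsum x).trans h1
    intro htop
    rw [htop, ENNReal.top_rpow_of_pos hp0, top_le_iff] at h4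
    exact absurd h4 (ENNReal.rpow_ne_top_of_nonneg hp0.le (by simp))
  · obtain ⟨S, B, hS, hSB⟩ := hlow n
    refine ⟨S, B, hS, ?_⟩
    have hw : ((2 : ℝ≥0∞)⁻¹) ^ (n + 1) * (2 : ℝ≥0∞) ^ (n + 1) = 1 := by
      rw [← mul_pow, ENNReal.inv_mul_cancel (by simp) (by simp), one_pow]
    calc (S.card : ℝ≥0∞) * (n + 1)
        = (((2 : ℝ≥0∞)⁻¹) ^ (n + 1)) ^ p * (S.card * (((2 : ℝ≥0∞) ^ (n + 1)) ^ p * (n + 1))) := by
          have : (((2 : ℝ≥0∞)⁻¹) ^ (n + 1)) ^ p * (S.card * (((2 : ℝ≥0∞) ^ (n + 1)) ^ p * (n + 1))) =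
              ((((2 : ℝ≥0∞)⁻¹) ^ (n + 1)) ^ p * ((2 : ℝ≥0∞) ^ (n + 1)) ^ p) *
                (S.card * (n + 1)) := by ring
          rw [this, ← ENNReal.mul_rpow_of_nonneg _ _ hp0.le, hw, ENNReal.one_rpow, one_mul]
      _ ≤ (((2 : ℝ≥0∞)⁻¹) ^ (n + 1)) ^ p * ∑ x ∈ B, (∑ k ∈ S, h n (x * k⁻¹)⁻¹) ^ p :=
          mul_le_mul_right hSB _
      _ = ∑ x ∈ B, (∑ k ∈ S, ((2 : ℝ≥0∞)⁻¹) ^ (n + 1) * h n (x * k⁻¹)⁻¹) ^ p := by
          rw [mul_sum]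
          refine sum_congr rfl fun x _ => ?_
          rw [← mul_sum, ENNReal.mul_rpow_of_nonneg _ _ hp0.le]
      _ ≤ ∑ x ∈ B, (∑ k ∈ S, F (x * k⁻¹)⁻¹) ^ p := by
          refine sum_le_sum fun x _ => ENNReal.rpow_le_rpow (sum_le_sum fun k _ => ?_) hp0.le
          exact ENNReal.le_tsum (f := fun n : ℕ => ((2 : ℝ≥0∞)⁻¹) ^ (n + 1) * h n (x * k⁻¹)⁻¹) n

theorem exists_convolver (φ : F2 →* G) (hφ : Function.Injective φ) {p : ℝ} (hp : 1 < p)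
    (hp2 : p ≠ 2) :
    ∃ f : G → ℂ, (∀ x, ∃ r : ℝ, 0 ≤ r ∧ f x = r) ∧
      (∃ C : ℝ, ∀ ξ : G →₀ ℂ,
        Summable (fun g : G => ‖∑ k ∈ ξ.support, f (g * k⁻¹) * ξ k‖ ^ p) ∧
        ∑' g : G, ‖∑ k ∈ ξ.support, f (g * k⁻¹) * ξ k‖ ^ p ≤ C * ∑ k ∈ ξ.support, ‖ξ k‖ ^ p) ∧
      ¬ (∃ C : ℝ, ∀ ξ : G →₀ ℂ,
        Summable (fun g : G => ‖∑ k ∈ ξ.support, starRingEnd ℂ (f ((g * k⁻¹)⁻¹)) * ξ k‖ ^ p) ∧
        ∑' g : G, ‖∑ k ∈ ξ.support, starRingEnd ℂ (f ((g * k⁻¹)⁻¹)) * ξ k‖ ^ p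
          ≤ C * ∑ k ∈ ξ.support, ‖ξ k‖ ^ p) := by
  classical
  have hp0 : 0 < p := by linarith
  obtain ⟨F, hFt, hFu, hFl⟩ := exists_positive φ hφ hp hp2
  refine ⟨fun x => ((F x).toReal : ℂ), fun x => ⟨_, ENNReal.toReal_nonneg, rfl⟩,
    ⟨2 ^ p, fun ξ => ?_⟩, ?_⟩
  · -- the upper bound
    have hfin : ∀ u : Finset G,
        ∑ g ∈ u, ‖∑ k ∈ ξ.support, (((F (g * k⁻¹)).toReal : ℝ) : ℂ) * ξ k‖ ^ p ≤
          2 ^ p * ∑ k ∈ ξ.support, ‖ξ k‖ ^ p := by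
      intro u
      have hA : 0 ≤ 2 ^ p * ∑ k ∈ ξ.support, ‖ξ k‖ ^ p := by positivity
      rw [← ENNReal.ofReal_le_ofReal_iff hA, ENNReal.ofReal_sum_of_nonneg fun _ _ => by positivity]
      have h1 := hFu fun k => ENNReal.ofReal ‖ξ k‖
      have h2 : ∑' k, ENNReal.ofReal ‖ξ k‖ ^ p = ENNReal.ofReal (∑ k ∈ ξ.support, ‖ξ k‖ ^ p) := by
        rw [ENNReal.ofReal_sum_of_nonneg fun _ _ => by positivity]
        rw [tsum_eq_sum (s := ξ.support)]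
        · refine sum_congr rfl fun k _ => ?_
          rw [ENNReal.ofReal_rpow_of_nonneg (norm_nonneg _) hp0.le]
        · intro k hk
          rw [Finsupp.notMem_support_iff] at hk
          simp [hk, hp0]
      rw [h2] at h1
      have h3 : ENNReal.ofReal (2 ^ p * ∑ k ∈ ξ.support, ‖ξ k‖ ^ p) =
          2 ^ p * ENNReal.ofReal (∑ k ∈ ξ.support, ‖ξ k‖ ^ p) := by
        rw [ENNReal.ofReal_mul (by positivity), ← ENNReal.ofReal_rpow_of_nonneg (by norm_num) hp0.le]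
        simp
      rw [h3]
      refine le_trans ?_ h1
      refine le_trans ?_ (ENNReal.sum_le_tsum u)
      refine sum_le_sum fun g _ => ?_
      rw [← ENNReal.ofReal_rpow_of_nonneg (norm_nonneg _) hp0.le]
      refine ENNReal.rpow_le_rpow ?_ hp0.le
      refine le_trans (ENNReal.ofReal_le_ofReal (norm_sum_le _ _)) ?_
      rw [ENNReal.ofReal_sum_of_nonneg fun _ _ => by positivity]
      refine le_trans ?_ (ENNReal.sum_le_tsum ξ.support)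
      refine sum_le_sum fun k _ => ?_
      rw [norm_mul, ENNReal.ofReal_mul (norm_nonneg _), Complex.norm_real,
        Real.norm_of_nonneg ENNReal.toReal_nonneg, ENNReal.ofReal_toReal (hFt _)]
    have hnn : ∀ g, 0 ≤ ‖∑ k ∈ ξ.support, (((F (g * k⁻¹)).toReal : ℝ) : ℂ) * ξ k‖ ^ p :=
      fun g => by positivity
    exact ⟨summable_of_sum_le hnn hfin, Real.tsum_le_of_sum_le hnn hfin⟩
  · -- the lower bound
    rintro ⟨C, hC⟩
    obtain ⟨n, hn⟩ := exists_nat_gt C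
    obtain ⟨S, B, hS, hSB⟩ := hFl n
    set ξ : G →₀ ℂ := Finsupp.onFinset S (fun k => if k ∈ S then 1 else 0) (fun k hk => by
      by_contra h
      exact hk (if_neg h)) with hξ
    have hsupp : ξ.support = S := by
      ext k
      rw [Finsupp.mem_support_iff, hξ, Finsupp.onFinset_apply]
      by_cases h : k ∈ S <;> simp [h]
    have hval : ∀ k ∈ S, ξ k = 1 := fun k hk => by
      rw [hξ, Finsupp.onFinset_apply, if_pos hk]
    obtain ⟨hsum, hle⟩ := hC ξ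
    rw [hsupp] at hsum hle
    have h1 : ∑ k ∈ S, ‖ξ k‖ ^ p = S.card := by
      rw [sum_congr rfl fun k hk => by rw [hval k hk, norm_one, Real.one_rpow], sum_const,
        nsmul_eq_mul, mul_one]
    rw [h1] at hle
    have h2 := (hsum.sum_le_tsum B fun g _ => by positivity).trans hle
    have h3 : ∀ g, ‖∑ k ∈ S, starRingEnd ℂ (((F ((g * k⁻¹)⁻¹)).toReal : ℝ) : ℂ) * ξ k‖ =
        (∑ k ∈ S, F ((g * k⁻¹)⁻¹)).toReal := by
      intro g
      rw [ENNReal.toReal_sum fun k _ => hFt _]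
      have h4 : ∑ k ∈ S, starRingEnd ℂ (((F ((g * k⁻¹)⁻¹)).toReal : ℝ) : ℂ) * ξ k =
          ((∑ k ∈ S, (F ((g * k⁻¹)⁻¹)).toReal : ℝ) : ℂ) := by
        rw [Complex.ofReal_sum]
        refine sum_congr rfl fun k hk => ?_
        rw [hval k hk, mul_one, Complex.conj_ofReal]
      rw [h4, Complex.norm_real, Real.norm_of_nonneg (sum_nonneg fun k _ => ENNReal.toReal_nonneg)]
    simp only [h3] at h2
    have h5 : (S.card : ℝ≥0∞) * (n + 1) ≤ ENNReal.ofReal (C * S.card) := by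
      refine hSB.trans ?_
      refine le_trans ?_ (ENNReal.ofReal_le_ofReal h2)
      rw [ENNReal.ofReal_sum_of_nonneg fun _ _ => by positivity]
      refine sum_le_sum fun x _ => ?_
      rw [← ENNReal.ofReal_rpow_of_nonneg ENNReal.toReal_nonneg hp0.le, ENNReal.ofReal_toReal
        (ENNReal.sum_ne_top.2 fun k _ => hFt _)]
    have hcard : (0 : ℝ) < S.card := by exact_mod_cast hS.card_pos
    have h6 : (S.card : ℝ≥0∞) * (n + 1) = ENNReal.ofReal (S.card * (n + 1)) := by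
      rw [ENNReal.ofReal_mul hcard.le, ENNReal.ofReal_natCast, ENNReal.ofReal_add (by positivity)
        zero_le_one, ENNReal.ofReal_natCast, ENNReal.ofReal_one]
    rw [h6, ENNReal.ofReal_le_ofReal_iff'] at h5
    rcases h5 with h5 | h5
    · nlinarith
    · have : 0 < (S.card : ℝ) * (n + 1) := by positivity
      linarith

end Pool.Agent.Lib.MP_830418_an
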