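import Mathlib

/-!
Jensen's inequality and the Schur test for sums in `[0, ∞]`.
-/

open scoped ENNReal
open MeasureTheory

namespace Pool.Agent.Lib.MP_830418_an

theorem jensen_tsum {ι : Type*} {p : ℝ} (hp : 1 < p) (w z : ι → ℝ≥0∞) :
    (∑' i, w i * z i) ^ p ≤ (∑' i, w i) ^ (p - 1) * ∑' i, w i * z i ^ p := by
  letI : MeasurableSpace ι := ⊤
  have hp0 : 0 < p := by linarith
  have hq : p.HolderConjugate (p.conjExponent) := Real.HolderConjugate.conjExponent hp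
  have hq0 : 0 < p.conjExponent := hq.symm.pos
  have h := ENNReal.lintegral_mul_le_Lp_mul_Lq (Measure.count : Measure ι) hq.symm
    (f := fun i => w i ^ (1 / p.conjExponent)) (g := fun i => w i ^ (1 / p) * z i)
    (measurable_from_top.aemeasurable) (measurable_from_top.aemeasurable)
  simp only [lintegral_count, Pi.mul_apply] at h
  have h1 : ∀ i, w i ^ (1 / p.conjExponent) * (w i ^ (1 / p) * z i) = w i * z i := by
    intro i
    rw [← mul_assoc, ← ENNReal.rpow_add_of_nonneg _ _ (by positivity) (by positivity)]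
    have : 1 / p.conjExponent + 1 / p = 1 := by
      have := hq.inv_add_inv_eq_one
      rw [one_div, one_div]
      linarith
    rw [this, ENNReal.rpow_one]
  have h2 : ∀ i, (w i ^ (1 / p.conjExponent)) ^ p.conjExponent = w i := by
    intro i
    rw [← ENNReal.rpow_mul, one_div, inv_mul_cancel₀ hq0.ne', ENNReal.rpow_one]
  have h3 : ∀ i, (w i ^ (1 / p) * z i) ^ p = w i * z i ^ p := by
    intro i
    rw [ENNReal.mul_rpow_of_nonneg _ _ hp0.le, ← ENNReal.rpow_mul, one_div,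
      inv_mul_cancel₀ hp0.ne', ENNReal.rpow_one]
  simp only [h1, h2, h3] at h
  have h4 := ENNReal.rpow_le_rpow h hp0.le
  refine h4.trans ?_
  rw [ENNReal.mul_rpow_of_nonneg _ _ hp0.le, ← ENNReal.rpow_mul, ← ENNReal.rpow_mul]
  have h5 : 1 / p.conjExponent * p = p - 1 := by
    rw [Real.conjExponent]
    field_simp
  have h6 : 1 / p * p = 1 := by field_simp
  rw [h5, h6, ENNReal.rpow_one]

theorem schur {G : Type*} {p : ℝ} (hp : 1 < p) {K : G → G → ℝ≥0∞} {α β : ℝ≥0∞}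
    (hrow : ∀ g, ∑' k, K g k ≤ β) (hcol : ∀ k, ∑' g, K g k ≤ α) (z : G → ℝ≥0∞) :
    ∑' g, (∑' k, K g k * z k) ^ p ≤ β ^ (p - 1) * α * ∑' k, z k ^ p := by
  have hp0 : 0 ≤ p - 1 := by linarith
  calc ∑' g, (∑' k, K g k * z k) ^ p
      ≤ ∑' g, β ^ (p - 1) * ∑' k, K g k * z k ^ p := ENNReal.tsum_le_tsum fun g =>
        (jensen_tsum hp _ _).trans (mul_le_mul_left (ENNReal.rpow_le_rpow (hrow g) hp0) _)
    _ = β ^ (p - 1) * ∑' k, z k ^ p * ∑' g, K g k := by
        rw [ENNReal.tsum_mul_left, ENNReal.tsum_comm]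
        congr 1
        refine tsum_congr fun k => ?_
        rw [← ENNReal.tsum_mul_left]
        exact tsum_congr fun g => mul_comm _ _
    _ ≤ β ^ (p - 1) * ∑' k, z k ^ p * α :=
        mul_le_mul_right (ENNReal.tsum_le_tsum fun k => mul_le_mul_right (hcol k) _) _
    _ = β ^ (p - 1) * α * ∑' k, z k ^ p := by
        rw [ENNReal.tsum_mul_right]
        ring

theorem schur_two {G : Type*} {p : ℝ} (hp : 1 < p) {K K1 K2 : G → G → ℝ≥0∞}
    {α1 β1 α2 β2 : ℝ≥0∞} (hK : ∀ g k, K g k ≤ K1 g k + K2 g k)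
    (hrow1 : ∀ g, ∑' k, K1 g k ≤ β1) (hcol1 : ∀ k, ∑' g, K1 g k ≤ α1)
    (hrow2 : ∀ g, ∑' k, K2 g k ≤ β2) (hcol2 : ∀ k, ∑' g, K2 g k ≤ α2) (z : G → ℝ≥0∞) :
    ∑' g, (∑' k, K g k * z k) ^ p ≤
      2 ^ (p - 1) * (β1 ^ (p - 1) * α1 + β2 ^ (p - 1) * α2) * ∑' k, z k ^ p := by
  have hp0 : 0 ≤ p := by linarith
  calc ∑' g, (∑' k, K g k * z k) ^ p
      ≤ ∑' g, 2 ^ (p - 1) * ((∑' k, K1 g k * z k) ^ p + (∑' k, K2 g k * z k) ^ p) := by
        refine ENNReal.tsum_le_tsum fun g => ?_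
        refine le_trans (ENNReal.rpow_le_rpow ?_ hp0)
          (ENNReal.rpow_add_le_mul_rpow_add_rpow _ _ hp.le)
        rw [← ENNReal.tsum_add]
        refine ENNReal.tsum_le_tsum fun k => ?_
        rw [← add_mul]
        exact mul_le_mul_left (hK g k) _
    _ = 2 ^ (p - 1) * (∑' g, (∑' k, K1 g k * z k) ^ p + ∑' g, (∑' k, K2 g k * z k) ^ p) := by
        rw [ENNReal.tsum_mul_left, ENNReal.tsum_add]
    _ ≤ 2 ^ (p - 1) * (β1 ^ (p - 1) * α1 * ∑' k, z k ^ p + β2 ^ (p - 1) * α2 * ∑' k, z k ^ p) :=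
        mul_le_mul_right (add_le_add (schur hp hrow1 hcol1 z) (schur hp hrow2 hcol2 z)) _
    _ = _ := by ring

end Pool.Agent.Lib.MP_830418_an
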